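import Pool.Agent.H30.VM.TargetsF

/-!
# MP_70ba79_ag, board vmp_modules, module PSP: forms in the homogeneous coordinates
-/

set_option autoImplicit false

namespace Pool.Agent.H19.VMP

open MvPolynomial SC Pool.Agent.H27.LV Pool.Agent.H17.VG
open Pool.Agent.H17.CI (Tup IlT PQT TxT frmT upT RatT)
open Pool.Agent.H30.VM

/-- an exponent contains exponents of every smaller degree -/
theorem sub_exp {N : ℕ} (u : Fin N → ℕ) : ∀ d : ℕ, d ≤ ∑ i, u i →
    ∃ v : Fin N → ℕ, (∀ i, v i ≤ u i) ∧ ∑ i, v i = d := by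
  intro d
  induction d with
  | zero => exact fun _ => ⟨fun _ => 0, fun _ => Nat.zero_le _, by simp⟩
  | succ d ih =>
    intro h
    obtain ⟨v, h1, h2⟩ := ih (by omega)
    obtain ⟨i, hi⟩ : ∃ i, v i < u i := by
      by_contra hcon
      push Not at hcon
      have := Finset.sum_le_sum (s := Finset.univ) fun i _ => hcon i
      omega
    refine ⟨Function.update v i (v i + 1), fun j => ?_, ?_⟩
    · by_cases hj : j = i
      · subst hj
        rw [Function.update_self]
        omega
      · rw [Function.update_of_ne hj]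
        exact h1 j
    · rw [Finset.sum_update_of_mem (Finset.mem_univ i), Finset.sdiff_singleton_eq_erase]
      have h3 := Finset.add_sum_erase Finset.univ v (Finset.mem_univ i)
      omega

/-- a monomial of degree `m d` is a product of `m` monomials of degree `d` -/
theorem mono_psi {k : Type} [Field k] {N d : ℕ} : ∀ (m : ℕ) (u : Fin N → ℕ),
    ∑ i, u i = m * d → ∃ Ψ : MvPolynomial (Mon N d) k, ∀ (K : Type) [Field K] [Algebra k K]
    (z : Mon N d → K) (x : Fin N → K) (g : K), (∀ M : Mon N d, z M = (∏ a, x a ^ M.1 a) / g) →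
    aeval z Ψ = (∏ a, x a ^ u a) / g ^ m := by
  intro m
  induction m with
  | zero =>
    intro u hu
    refine ⟨1, fun K _ _ z x g hz => ?_⟩
    have h1 : ∀ i, u i = 0 := by
      intro i
      have := Finset.single_le_sum (f := u) (fun _ _ => Nat.zero_le _) (Finset.mem_univ i)
      omega
    simp [h1]
  | succ m ih =>
    intro u hu
    have hd : d ≤ ∑ i, u i := by
      rw [hu]
      exact Nat.le_mul_of_pos_left d (Nat.succ_pos m)
    obtain ⟨v, h1, h2⟩ := sub_exp u d hd
    have h3 : ∑ i, (u i - v i) = m * d := by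
      have h4 : ∑ i, (u i - v i) + ∑ i, v i = ∑ i, u i := by
        rw [← Finset.sum_add_distrib]
        exact Finset.sum_congr rfl fun i _ => Nat.sub_add_cancel (h1 i)
      rw [h2, hu, Nat.succ_mul] at h4
      omega
    obtain ⟨Ψ, hΨ⟩ := ih (fun i => u i - v i) h3
    refine ⟨X ⟨v, h2⟩ * Ψ, fun K _ _ z x g hz => ?_⟩
    rw [map_mul, aeval_X, hz, hΨ K z x g hz, div_mul_div_comm, ← Finset.prod_mul_distrib,
      ← pow_succ']
    congr 1
    refine Finset.prod_congr rfl fun i _ => ?_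
    rw [← pow_add]
    congr 1
    exact Nat.add_sub_cancel' (h1 i)

/-- the same for forms -/
theorem form_psi {k : Type} [Field k] {N d m : ℕ} (P : MvPolynomial (Fin N) k)
    (hP : P.IsHomogeneous (m * d)) : ∃ Ψ : MvPolynomial (Mon N d) k, ∀ (K : Type) [Field K]
    [Algebra k K] (z : Mon N d → K) (x : Fin N → K) (g : K),
    (∀ M : Mon N d, z M = (∏ a, x a ^ M.1 a) / g) →
    aeval z Ψ = eval x (MvPolynomial.map (algebraMap k K) P) / g ^ m := by
  have h1 : ∀ u : Fin N →₀ ℕ, ∃ Ψ : MvPolynomial (Mon N d) k, u ∈ P.support →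
      ∀ (K : Type) [Field K] [Algebra k K] (z : Mon N d → K) (x : Fin N → K) (g : K),
      (∀ M : Mon N d, z M = (∏ a, x a ^ M.1 a) / g) →
      aeval z Ψ = (∏ a, x a ^ u a) / g ^ m := by
    intro u
    by_cases hu : u ∈ P.support
    · have h2 : ∑ i, u i = m * d := by
        have h3 := hP (mem_support_iff.1 hu)
        rw [Finsupp.weight_apply, Finsupp.sum_fintype _ _ (fun i => by simp)] at h3
        simpa using h3
      obtain ⟨Ψ, hΨ⟩ := mono_psi (k := k) m u h2
      exact ⟨Ψ, fun _ => hΨ⟩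
    · exact ⟨0, fun h => absurd h hu⟩
  choose Ψ hΨ using h1
  refine ⟨∑ u ∈ P.support, C (coeff u P) * Ψ u, fun K _ _ z x g hz => ?_⟩
  rw [map_sum, eval_map, eval₂_eq', Finset.sum_div]
  refine Finset.sum_congr rfl fun u hu => ?_
  rw [map_mul, aeval_C, hΨ u hu K z x g hz, mul_div_assoc]

theorem pf_PSP : T_PSP := by
  intro k _ n ι _ _ i₀ e Z c hi₀ Φ m hΦ
  have hd : dgB e Z ≠ 0 := by
    unfold dgB
    have h1 : e i₀ + 1 ≤ ∑ i ∈ Finset.univ \ Z, (e i + 1) :=
      Finset.single_le_sum (f := fun i => e i + 1) (fun _ _ => Nat.zero_le _)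
        (Finset.mem_sdiff.2 ⟨Finset.mem_univ _, hi₀⟩)
    omega
  obtain ⟨Ψ, hΨ⟩ := form_psi (N := n + 1) (d := dgB e Z) (m := m) (Φ ^ dgB e Z)
    (by simpa [mul_comm] using hΦ.pow (dgB e Z))
  refine ⟨Ψ, fun K _ _ z x hz => ?_⟩
  obtain ⟨_, h2, h3⟩ := hz
  have hg : eval x (up K (bnd Z c)) ≠ 0 := by
    unfold bnd up
    rw [map_prod, map_prod]
    refine Finset.prod_ne_zero_iff.2 fun i hi => ?_
    intro h4
    exact (Finset.mem_sdiff.1 hi).2 ((h2 i).1 h4)
  rw [hΨ K z x _ h3, div_eq_zero_iff, map_pow, map_pow]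
  constructor
  · rintro (h4 | h4)
    · exact pow_eq_zero_iff hd |>.1 h4
    · exact absurd h4 (pow_ne_zero _ hg)
  · intro h4
    left
    have : eval x (MvPolynomial.map (algebraMap k K) Φ) = 0 := h4
    rw [this, zero_pow hd]

end Pool.Agent.H19.VMP
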